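import Mathlib
import Pool.Agent.Lib.MP_edf429_lc.FinQ

namespace Pool.Agent.Results.MP_edf429_lc.HomTest

open Function Pool.Agent.Shared.GroupUndec Pool.Agent.Lib.MP_edf429_lc

/-- `g` is a test element of `G`: for every nontrivial quotient `G ⧸ N` some homomorphism from `G`
to the direct product of `G ⧸ N` with a finite group does not kill `g`. -/
def IsTest {G : Type} [Group G] (g : G) : Prop :=
  ∀ (N : Subgroup G) [N.Normal], N ≠ ⊤ →
    ∃ (S : Type) (_ : Group S) (_ : Finite S) (φ : G →* (G ⧸ N) × S), φ g ≠ 1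

/-- A normal generator is a test element. -/
lemma isTest_of_normal {G : Type} [Group G] (g : G) (h : Subgroup.normalClosure {g} = ⊤) :
    IsTest g := by
  intro N _ hN
  refine ⟨Unit, inferInstance, inferInstance, (QuotientGroup.mk' N).prod 1, fun e => hN ?_⟩
  rw [eq_top_iff, ← h]
  apply Subgroup.normalClosure_le_normal
  rw [Set.singleton_subset_iff]
  exact (QuotientGroup.eq_one_iff _).mp (congrArg Prod.fst e)

lemma IsTest.push {A G : Type} [Group A] [Group G] {a : A} (ha : IsTest a) (i : A →* G)
    (N : Subgroup G) [N.Normal] (h : N.comap i ≠ ⊤) :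
    ∃ (S : Type) (_ : Group S) (_ : Finite S) (φ : A →* (G ⧸ N) × S), φ a ≠ 1 := by
  obtain ⟨S, _, _, φ, hφ⟩ := ha (N.comap i) h
  let j : A ⧸ N.comap i →* G ⧸ N := QuotientGroup.map _ _ i le_rfl
  have hj : ∀ z, j z = 1 → z = 1 := by
    intro z hz
    obtain ⟨z, rfl⟩ := QuotientGroup.mk_surjective z
    exact (QuotientGroup.eq_one_iff _).mpr ((QuotientGroup.eq_one_iff (N := N) (i z)).mp hz)
  refine ⟨S, inferInstance, inferInstance, (j.prodMap (MonoidHom.id S)).comp φ, fun e => hφ ?_⟩
  have e1 : j (φ a).1 = 1 := congrArg Prod.fst e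
  have e2 : (φ a).2 = 1 := by simpa using congrArg Prod.snd e
  exact Prod.ext (hj _ e1) e2

/-- Groups with a test element are closed under free products. -/
lemma IsTest.coprod {A B : Type} [Group A] [Group B] {a : A} {b : B} (ha : IsTest a)
    (hb : IsTest b) : IsTest (Monoid.Coprod.inl a * Monoid.Coprod.inr b : Monoid.Coprod A B) := by
  intro N _ hN
  by_cases h1 : N.comap Monoid.Coprod.inl = ⊤
  · by_cases h2 : N.comap Monoid.Coprod.inr = ⊤
    · refine absurd (eq_top_iff.mpr fun z _ => ?_) hN
      induction z using Monoid.Coprod.induction_on with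
      | inl m => exact Subgroup.mem_comap.mp (h1 ▸ Subgroup.mem_top m)
      | inr m => exact Subgroup.mem_comap.mp (h2 ▸ Subgroup.mem_top m)
      | mul x y hx hy => exact N.mul_mem (hx trivial) (hy trivial)
    · obtain ⟨S, _, _, φ, hφ⟩ := hb.push _ N h2
      exact ⟨S, inferInstance, inferInstance, Monoid.Coprod.lift 1 φ, by simpa using hφ⟩
  · obtain ⟨S, _, _, φ, hφ⟩ := ha.push _ N h1
    exact ⟨S, inferInstance, inferInstance, Monoid.Coprod.lift φ 1, by simpa using hφ⟩

/-- One algorithm finds a nontrivial element in every finitely presented nontrivial group that has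
a test element. -/
theorem result :
    ∃ f : ℕ × List (List (ℕ × Bool)) →. List (ℕ × Bool), Partrec f ∧
      ∀ (n : ℕ) (rels : List (List (Fin n × Bool))),
        Nontrivial (FreeGroup (Fin n) ⧸
          Subgroup.normalClosure {x : FreeGroup (Fin n) | ∃ r ∈ rels, x = FreeGroup.mk r}) →
        (∃ g : FreeGroup (Fin n) ⧸
          Subgroup.normalClosure {x : FreeGroup (Fin n) | ∃ r ∈ rels, x = FreeGroup.mk r},
          IsTest g) →
        ∃ w ∈ f (n, rels.map (List.map (fun p : Fin n × Bool => (p.1.val, p.2)))),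
          ∃ w' : List (Fin n × Bool),
            w'.map (fun p : Fin n × Bool => (p.1.val, p.2)) = w ∧
            (QuotientGroup.mk (FreeGroup.mk w') : FreeGroup (Fin n) ⧸
              Subgroup.normalClosure {x : FreeGroup (Fin n) | ∃ r ∈ rels, x = FreeGroup.mk r})
              ≠ 1 := by
  classical
  let C : ℕ × List Word → Word × List Step × ℕ × Tab → Prop := fun a c =>
    Check a (c.1, c.2.1) ∨ Check2 a (c.1, c.2.2)
  have hC : PrimrecRel C :=
    (primrec_check.comp Primrec.fst ((Primrec.fst.comp Primrec.snd).pair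
      (Primrec.fst.comp (Primrec.snd.comp Primrec.snd)))).or
    (primrec_check2.comp Primrec.fst ((Primrec.fst.comp Primrec.snd).pair
      (Primrec.snd.comp (Primrec.snd.comp Primrec.snd))))
  obtain ⟨f, hf, hs⟩ := exists_search C hC
  refine ⟨f, hf, fun n rels hnt hg => ?_⟩
  set K := Subgroup.normalClosure {x : FreeGroup (Fin n) | ∃ r ∈ rels, x = FreeGroup.mk r}
    with hK
  obtain ⟨g, hg⟩ := hg
  let P : List Word := rels.map vals
  have hPn : ∀ r ∈ P, ∀ p ∈ r, p.1 < n := by
    intro r hr
    obtain ⟨r', -, rfl⟩ := List.mem_map.mp hr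
    exact vals_letters r'
  let π : FreeGroup (Fin n) →* FreeGroup (Fin n) ⧸ K := QuotientGroup.mk' K
  -- homomorphisms out of the presented group
  have hlift : ∀ (H : Type) [Group H] (y : ℕ → H), (∀ r ∈ P, ev y r = 1) →
      ∃ ψ : FreeGroup (Fin n) ⧸ K →* H, ∀ u : List (Fin n × Bool),
        ψ (π (FreeGroup.mk u)) = ev y (vals u) := by
    intro H _ y hy
    let ψ0 : FreeGroup (Fin n) →* H := FreeGroup.lift fun k => y k
    have h0 : ∀ u : List (Fin n × Bool), ψ0 (FreeGroup.mk u) = ev y (vals u) := by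
      intro u
      rw [← ev_vals]
      exact ev_congr (vals_letters u) fun k hk => by simp [Pool.Agent.Lib.MP_edf429_lc.ext, hk, ψ0]
    refine ⟨QuotientGroup.lift K ψ0 ?_, h0⟩
    apply Subgroup.normalClosure_le_normal
    rintro _ ⟨r, hr, rfl⟩
    change ψ0 _ = 1
    rw [h0]
    exact hy _ (List.mem_map_of_mem hr)
  have hrel : ∀ (H : Type) [Group H] (ψ : FreeGroup (Fin n) ⧸ K →* H),
      ∀ r ∈ P, ev (ext fun k => (ψ.comp π) (FreeGroup.of k)) r = 1 := by
    intro H _ ψ r hr
    obtain ⟨r', hr', rfl⟩ := List.mem_map.mp hr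
    rw [ev_vals]
    have : π (FreeGroup.mk r') = 1 :=
      (QuotientGroup.eq_one_iff _).mpr (Subgroup.subset_normalClosure ⟨r', hr', rfl⟩)
    rw [MonoidHom.comp_apply, this, map_one]
  have hgen : ∀ (H : Type) [Group H] (ψ : FreeGroup (Fin n) ⧸ K →* H),
      (∀ k, ψ (π (FreeGroup.of k)) = 1) → ∀ z, ψ z = 1 := by
    intro H _ ψ h z
    obtain ⟨z, rfl⟩ := QuotientGroup.mk_surjective z
    have : ψ.comp π = 1 := FreeGroup.ext_hom _ _ h
    exact DFunLike.congr_fun this z
  have hex : ∃ c, C (n, P) c := by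
    by_cases hfin : ∃ (S : Type) (_ : Group S) (_ : Finite S) (ψ : FreeGroup (Fin n) ⧸ K →* S),
        ψ g ≠ 1
    · obtain ⟨S, _, _, ψ, hψ⟩ := hfin
      let ρ : S →* Equiv.Perm (Fin (Nat.card S)) :=
        (Finite.equivFin S).permCongrHom.toMonoidHom.comp (MulAction.toPermHom S S)
      have hρ : Injective ρ :=
        (Finite.equivFin S).permCongrHom.injective.comp MulAction.toPerm_injective
      have : ∃ k, (ρ.comp ψ) (π (FreeGroup.of k)) ≠ 1 := by
        by_contra hc
        push Not at hc
        exact hψ (hρ ((hgen _ _ hc g).trans (map_one ρ).symm))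
      obtain ⟨k, hk⟩ := this
      obtain ⟨T, hT⟩ := check2_complete hPn _ (hrel _ (ρ.comp ψ)) k.2 (by rw [ext_val]; exact hk)
      exact ⟨([(k.val, true)], [], _, T), Or.inr hT⟩
    · obtain ⟨g0, rfl⟩ := QuotientGroup.mk_surjective g
      let w' := g0.toWord
      let b : List Word × Word := (P, vals w')
      let ι : FreeGroup (Fin n) →* FreeGroup ℕ := FreeGroup.map Fin.val
      have hι : ∀ u : List (Fin n × Bool), ι (FreeGroup.mk u) = FreeGroup.mk (vals u) :=
        fun u => FreeGroup.map.mk
      let M : Subgroup (FreeGroup (Fin n)) := (derSub b).comap ι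
      have hM : ∀ u : List (Fin n × Bool), FreeGroup.mk u ∈ M ↔ Der b (vals u) := by
        intro u
        rw [Subgroup.mem_comap, hι, mem_derSub]
      have hKM : K ≤ M := by
        apply Subgroup.normalClosure_le_normal
        rintro _ ⟨r, hr, rfl⟩
        exact (hM r).mpr (Der.ax (List.mem_cons_of_mem _ (List.mem_map_of_mem hr)))
      have hMN : ∀ z, π z ∈ M.map π ↔ z ∈ M := by
        intro z
        rw [← Subgroup.mem_comap, Subgroup.comap_map_eq, QuotientGroup.ker_mk', sup_eq_left.mpr hKM]
      have hN : (M.map π).Normal := Subgroup.Normal.map inferInstance _ (QuotientGroup.mk'_surjective K)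
      have htop : M.map π = ⊤ := by
        by_contra hne
        obtain ⟨S, _, _, φ, hφ⟩ := hg (M.map π) hne
        have h2 : (φ (QuotientGroup.mk g0)).2 = 1 := by
          by_contra h2
          exact hfin ⟨S, inferInstance, inferInstance, (MonoidHom.snd _ _).comp φ, h2⟩
        let φ1 := (MonoidHom.fst _ _).comp φ
        let τ : FreeGroup (Fin n) →* (FreeGroup (Fin n) ⧸ K) ⧸ M.map π :=
          (QuotientGroup.mk' (M.map π)).comp π
        have hτ : Surjective τ :=
          (QuotientGroup.mk'_surjective _).comp (QuotientGroup.mk'_surjective _)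
        choose u hu using fun k : Fin n => hτ (φ1 (π (FreeGroup.of k)))
        let U : List Word := List.ofFn fun k => vals (u k).toWord
        have hU : ∀ v : List (Fin n × Bool),
            (Der b (subst U (vals v)) ↔ φ1 (π (FreeGroup.mk v)) = 1) := by
          intro v
          have e1 : FreeGroup.mk (subst U (vals v)) = ι (FreeGroup.lift u (FreeGroup.mk v)) := by
            rw [← ev_of, ev_subst, ← MonoidHom.comp_apply, ← ev_vals]
            refine ev_congr (vals_letters v) fun k hk => ?_
            have : U.getD k [] = vals (u ⟨k, hk⟩).toWord := by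
              simp [U, List.getD_eq_getElem?_getD, hk]
            rw [this, ev_of, ← hι, FreeGroup.mk_toWord]
            simp [Pool.Agent.Lib.MP_edf429_lc.ext, hk]
          have e2 : τ.comp (FreeGroup.lift u) = φ1.comp π :=
            FreeGroup.ext_hom _ _ fun k => by simpa using hu k
          have e3 := DFunLike.congr_fun e2 (FreeGroup.mk v)
          rw [MonoidHom.comp_apply, MonoidHom.comp_apply φ1] at e3
          rw [← mem_derSub, e1, ← Subgroup.mem_comap, ← hMN, ← e3]
          exact (QuotientGroup.eq_one_iff _).symm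
        have h1 : φ1 (π (FreeGroup.mk w')) = 1 := by
          rw [← hU]
          apply Der.endo (b := b) U
          intro r hr
          obtain ⟨r', hr', rfl⟩ := List.mem_map.mp hr
          have : π (FreeGroup.mk r') = 1 :=
            (QuotientGroup.eq_one_iff _).mpr (Subgroup.subset_normalClosure ⟨r', hr', rfl⟩)
          rw [hU, this, map_one]
        rw [FreeGroup.mk_toWord] at h1
        exact hφ (Prod.ext h1 h2)
      obtain ⟨L, hL1, hL2⟩ := der_list (b := b) ((List.range n).map fun i => [(i, true)]) (by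
        intro p hp
        obtain ⟨i, hi, rfl⟩ := List.mem_map.mp hp
        refine (hM [(⟨i, List.mem_range.mp hi⟩, true)]).mp ((hMN _).mp ?_)
        rw [htop]; trivial)
      exact ⟨(vals w', L, 0, [], []),
        Or.inl ⟨vals_letters w', hL1, fun p hp => ⟨p, hL2 p hp, rfl⟩⟩⟩
  obtain ⟨w, hw, ⟨L, k, T⟩, hc | hc⟩ := hs (n, P) hex
  · obtain ⟨w', rfl⟩ := exists_vals w hc.1
    refine ⟨_, hw, w', rfl, fun h1 => ?_⟩
    have hall : ∀ k : Fin n, π (FreeGroup.of k) = 1 := by
      intro k
      obtain ⟨v, hv, e⟩ := hc.2.2 [(k.val, true)]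
        (List.mem_map.mpr ⟨k.val, List.mem_range.mpr k.2, rfl⟩)
      have := der_sound (ext fun k => ((MonoidHom.id _).comp π) (FreeGroup.of k)) (P, vals w')
        (hrel _ (MonoidHom.id _)) (fun y hy => by
          obtain ⟨ψ, hψ⟩ := hlift _ y hy
          rw [← hψ]
          change ψ (QuotientGroup.mk _) = 1
          rw [h1, map_one]) (v := v) ⟨L, hc.2.1, hv⟩
      rw [e] at this
      simpa [ext_val] using this
    obtain ⟨z, hz⟩ := exists_ne (1 : FreeGroup (Fin n) ⧸ K)
    exact hz (hgen _ (MonoidHom.id _) hall z)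
  · obtain ⟨w', rfl⟩ := exists_vals w hc.1
    refine ⟨_, hw, w', rfl, fun h1 => ?_⟩
    obtain ⟨x, hx1, hx2⟩ := check2_sound hPn hc
    obtain ⟨ψ, hψ⟩ := hlift _ x hx1
    apply hx2
    rw [← hψ]
    change ψ (QuotientGroup.mk _) = 1
    rw [h1, map_one]

end Pool.Agent.Results.MP_edf429_lc.HomTest
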