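import Pool.Agent.Lib.MP_edf429_lc.WG.Main

/-!
Finitely presented perfect groups of arbitrarily large normal rank.
-/

namespace Pool.Agent.Results.MP_edf429_lc.NormalRank

/-- For every `k` there is a finite presentation of a perfect group in which the normal closure of
any `k` elements is a proper subgroup. -/
theorem result (k : ℕ) : ∃ (n : ℕ) (rels : List (List (Fin n × Bool))),
    commutator (FreeGroup (Fin n) ⧸ Subgroup.normalClosure
      {x : FreeGroup (Fin n) | ∃ r ∈ rels, x = FreeGroup.mk r}) = ⊤ ∧
    ∀ g : Fin k → FreeGroup (Fin n) ⧸ Subgroup.normalClosure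
      {x : FreeGroup (Fin n) | ∃ r ∈ rels, x = FreeGroup.mk r},
      Subgroup.normalClosure (Set.range g) ≠ ⊤ :=
  Pool.Agent.WG.final k

end Pool.Agent.Results.MP_edf429_lc.NormalRank
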