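import Mathlib
import Pool.Agent.Lib.MP_edf429_lc.Options

namespace Pool.Agent.Results.MP_edf429_lc.OmitGenerator

open Function Pool.Agent.Shared.GroupUndec Pool.Agent.Lib.MP_edf429_lc

/-- For each fixed `n ≥ 3`, no algorithm on `n`-generator presentations of nontrivial groups
always outputs a nontrivial word that omits at least one of the generators. -/
theorem result (n : ℕ) (hn : 3 ≤ n) :
    ¬ ∃ f : List (List (ℕ × Bool)) →. List (ℕ × Bool), Partrec f ∧
      ∀ rels : List (List (Fin n × Bool)),
        Nontrivial (FreeGroup (Fin n) ⧸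
          Subgroup.normalClosure {x : FreeGroup (Fin n) | ∃ r ∈ rels, x = FreeGroup.mk r}) →
        ∃ w ∈ f (rels.map (List.map (fun p : Fin n × Bool => (p.1.val, p.2)))),
          ∃ w' : List (Fin n × Bool),
            w'.map (fun p : Fin n × Bool => (p.1.val, p.2)) = w ∧
            (∃ i : Fin n, ∀ p ∈ w', p.1 ≠ i) ∧
            (QuotientGroup.mk (FreeGroup.mk w') : FreeGroup (Fin n) ⧸
              Subgroup.normalClosure {x : FreeGroup (Fin n) | ∃ r ∈ rels, x = FreeGroup.mk r})
              ≠ 1 := by
  classical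
  rintro ⟨f, hf, hA⟩
  obtain ⟨N, R, w, hw, hR, hwN, hnb⟩ := novikov_boone
  have hcrt := crt (perfect (N := N) (R := R)) (mark N R (n := n)) mark_surj mark_comax
  choose φ hφ1 hφ2 using hcrt
  -- substitution tables
  let σ : Opt n → List Word := fun o =>
    (List.range (N + 4)).map fun j => vals (φ o (yy N R j)).toWord
  have hσn : ∀ o, ∀ u ∈ σ o, ∀ p ∈ u, p.1 < n := by
    intro o u hu
    obtain ⟨j, -, rfl⟩ := List.mem_map.mp hu
    exact vals_letters _
  have hσ : ∀ (G : Type) [Group G] (g : FreeGroup (Fin n) →* G) (o : Opt n) (j : ℕ),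
      ev (ext fun k => g (FreeGroup.of k)) ((σ o).getD j []) =
        if j < N + 4 then g (φ o (yy N R j)) else 1 := by
    intro G _ g o j
    split_ifs with hj
    · have : (σ o).getD j [] = vals (φ o (yy N R j)).toWord := by
        simp [σ, List.getD_eq_getElem?_getD, hj]
      rw [this, ev_vals, FreeGroup.mk_toWord]
    · have : (σ o).getD j [] = [] := by
        simp [σ, List.getD_eq_getElem?_getD, hj]
      rw [this, ev_nil]
  let θw : Opt n → Fin n → Word := fun o k =>
    if k = o.1.1 then tauW N else if o.1.2 k then [(N + 3, true)] else []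
  have hθw : ∀ o k, ev (yy N R) (θw o k) = mark N R o (FreeGroup.of k) := by
    intro o k
    simp only [θw, mark, FreeGroup.lift_apply_of]
    split_ifs <;> simp [ev_tauW]
  let LO : List (Opt n) := Finset.univ.toList
  let Pk : Fin n → Word := fun k =>
    eqn [(k.val, true)] (LO.flatMap fun o => subst (σ o) (θw o k))
  let P0 : List Word := (List.finRange n).map Pk ++
    LO.flatMap fun o => (fixRel N R).map (subst (σ o))
  let V : Opt n → ℕ → Word := fun o m => subst (σ o) (varRel N (w m))
  have hV : ∀ o, Primrec (V o) := fun o =>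
    primrec_subst.comp (Primrec.const _) ((primrec_varRel N).comp hw)
  obtain ⟨idx, hidx⟩ := exists_injective_nat (Opt n)
  let T : Opt n → Word → Prop := fun o u => (∃ o' : Opt n, Good o' u) ∧
    (¬ Good o u ∨ ∃ o' : {o' : Opt n // idx o' < idx o}, Good o'.1 u)
  have hT : ∀ o, PrimrecPred (T o) := fun o =>
    (primrecPred_exists_fin _ primrec_good).and
      ((primrec_good o).not.or (primrecPred_exists_fin _ fun o' => primrec_good _))
  obtain ⟨e, he⟩ := diag f hf P0 LO V hV T hT
  set P : List Word := P0 ++ LO.map fun o => V o (e o) with hP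
  have hflat : ∀ (G : Type) [Group G] (x : ℕ → G) (u : Opt n → Word) (L : List (Opt n)),
      ev x (L.flatMap u) = (L.map fun o => ev x (u o)).prod := by
    intro G _ x u L
    induction L with
    | nil => rfl
    | cons o L ih => simp [ih]
  have hPiff : ∀ (G : Type) [Group G] (x : ℕ → G), (∀ r ∈ P, ev x r = 1) ↔
      (∀ k : Fin n, x k = (LO.map fun o =>
        ev (fun j => ev x ((σ o).getD j [])) (θw o k)).prod) ∧
      (∀ o, Fix N R fun j => ev x ((σ o).getD j [])) ∧
      ∀ o, Var N (ev (fun j => ev x ((σ o).getD j [])) (w (e o)))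
        fun j => ev x ((σ o).getD j []) := by
    intro G _ x
    simp only [hP, P0, V, Pk, LO, List.mem_append, List.mem_map, List.mem_flatMap,
      List.mem_finRange, Finset.mem_toList, Finset.mem_univ, true_and, or_imp, forall_and,
      forall_exists_index, forall_apply_eq_imp_iff, and_imp, ev_eqn, hflat, ev_subst,
      ev_cons_true, ev_nil, mul_one, ← fix_iff, ← var_iff, and_assoc]
    refine and_congr Iff.rfl (and_congr ?_ Iff.rfl)
    constructor
    · intro h o r hr
      rw [← ev_subst]
      exact h _ o r hr rfl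
    · rintro h _ o r hr rfl
      rw [ev_subst]
      exact h o r hr
  have hPn : ∀ r ∈ P, ∀ p ∈ r, p.1 < n := by
    intro r hr
    simp only [hP, P0, V, Pk, List.mem_append, List.mem_map, List.mem_flatMap] at hr
    rcases hr with (⟨k, -, rfl⟩ | ⟨o, -, r, -, rfl⟩) | ⟨o, -, rfl⟩
    · intro p hp
      rcases List.mem_append.mp hp with h | h
      · rw [List.mem_singleton.mp h]; exact k.2
      · refine winv_letters (fun q hq => ?_) p h
        obtain ⟨o, -, hq⟩ := List.mem_flatMap.mp hq
        exact subst_letters (hσn o) _ q hq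
    · exact subst_letters (hσn o) _
    · exact subst_letters (hσn o) _
  obtain ⟨rels, hrels⟩ := exists_vals_list P hPn
  have hsingle : ∀ (G : Type) [Group G] (u : Opt n → G) (o : Opt n),
      (∀ o', o' ≠ o → u o' = 1) → (LO.map u).prod = u o := by
    intro G _ u o h
    have key : ∀ L : List (Opt n), L.Nodup → (L.map u).prod = if o ∈ L then u o else 1 := by
      intro L hL
      induction L with
      | nil => simp
      | cons a L ih =>
        rw [List.nodup_cons] at hL
        rw [List.map_cons, List.prod_cons, ih hL.2]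
        by_cases ha : a = o
        · subst ha
          simp [hL.1]
        · have : o ≠ a := fun e => ha e.symm
          simp [h a ha, this]
    rw [key LO (Finset.nodup_toList _), if_pos (by simp [LO])]
  have hev1 : ∀ (G : Type) [Group G] (u : Word), ev (fun _ => (1 : G)) u = 1 := by
    intro G _ u
    induction u with
    | nil => rfl
    | cons p u ih => rcases p with ⟨j, _ | _⟩ <;> simp [ih]
  set K := Subgroup.normalClosure {x : FreeGroup (Fin n) | ∃ r ∈ rels, x = FreeGroup.mk r}
    with hK
  -- an option that is never triggered gives a nontrivial quotient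
  have hnt : ∀ o, ¬ Halts (e o) → Nontrivial (FreeGroup (Fin n) ⧸ K) := by
    intro o ho
    obtain ⟨G, _, a0, h1, h2⟩ := (hnb (e o)).2 ho
    obtain ⟨H, _, x, hx1, hx2, hx3, hx4⟩ := model a0 N R _ hR (hwN _) h1 h2
    obtain ⟨ψ, hψ⟩ := exists_hom hx1 hx4
    let g : FreeGroup (Fin n) →* H := ψ.comp (mark N R o)
    have e1 : (fun j => ev (ext fun k => g (FreeGroup.of k)) ((σ o).getD j [])) = x := by
      funext j
      rw [hσ]
      split_ifs with hj
      · simp only [g, MonoidHom.comp_apply, hφ1, hψ]
      · exact (hx4 j (not_lt.mp hj)).symm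
    have e2 : ∀ o', o' ≠ o →
        (fun j => ev (ext fun k => g (FreeGroup.of k)) ((σ o').getD j [])) = fun _ => 1 := by
      intro o' ho'
      funext j
      rw [hσ]
      split_ifs with hj
      · simp only [g, MonoidHom.comp_apply, hφ2 o' _ o ho'.symm, map_one]
      · rfl
    have hrel : ∀ r ∈ P, ev (ext fun k => g (FreeGroup.of k)) r = 1 := by
      rw [hPiff]
      refine ⟨fun k => ?_, fun o' => ?_, fun o' => ?_⟩
      · rw [hsingle _ _ o fun o' ho' => by rw [e2 o' ho', hev1], e1, ext_val]
        have : x = fun j => ψ (yy N R j) := funext fun j => (hψ j).symm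
        rw [this, ← map_ev, hθw]
        rfl
      · by_cases ho' : o' = o
        · rw [ho', e1]; exact hx1
        · rw [e2 o' ho', ← fix_iff]
          exact fun r _ => hev1 _ r
      · by_cases ho' : o' = o
        · rw [ho', e1]; exact hx2
        · rw [e2 o' ho', ← var_iff]
          exact hev1 _ _
    have hKg : K ≤ g.ker := by
      apply Subgroup.normalClosure_le_normal
      rintro _ ⟨r, hr, rfl⟩
      change g _ = 1
      rw [← ev_vals]
      exact hrel _ (hrels ▸ List.mem_map_of_mem hr)
    obtain ⟨j, hj⟩ := o.2.2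
    refine ⟨⟨QuotientGroup.mk (FreeGroup.of j), 1, fun h => hx3 ?_⟩⟩
    have := hKg ((QuotientGroup.eq_one_iff _).mp h)
    rw [MonoidHom.mem_ker] at this
    simpa only [g, MonoidHom.comp_apply, mark_true o hj, hψ] using this
  have hleast : ∀ u : Word, (∃ o : Opt n, Good o u) →
      ∃ o : Opt n, Good o u ∧ ¬ T o u ∧ ∀ o', o' ≠ o → T o' u := by
    intro u hu
    obtain ⟨o, ho, hmin⟩ := (measure idx).wf.has_min {o | Good o u} hu
    refine ⟨o, ho, ?_, fun o' ho' => ⟨hu, ?_⟩⟩
    · rintro ⟨-, h | ⟨o', h⟩⟩
      · exact h ho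
      · exact hmin o'.1 h o'.2
    · by_cases h : Good o' u
      · have h1 : ¬ idx o' < idx o := hmin o' h
        have h2 : idx o' ≠ idx o := fun h => ho' (hidx h)
        exact Or.inr ⟨⟨o, by omega⟩, ho⟩
      · exact Or.inl h
  have hex : ∃ o, ¬ Halts (e o) := by
    obtain ⟨o0, -⟩ := exists_good hn [] ⟨0, by omega⟩ (by simp)
    by_cases h0 : Halts (e o0)
    · obtain ⟨u, hu, hTu⟩ := (he o0).mp h0
      obtain ⟨o, -, ho, -⟩ := hleast u hTu.1
      refine ⟨o, fun h => ho ?_⟩
      obtain ⟨u', hu', h'⟩ := (he o).mp h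
      rwa [Part.mem_unique hu hu']
    · exact ⟨o0, h0⟩
  obtain ⟨o1, ho1⟩ := hex
  obtain ⟨u, hu, w', rfl, ⟨i, hi⟩, hne⟩ := hA rels (hnt o1 ho1)
  have hu' : vals w' ∈ f P := hrels ▸ hu
  obtain ⟨o, hgood, -, hoth⟩ := hleast _ (exists_good hn w' i hi)
  let g : FreeGroup (Fin n) →* FreeGroup (Fin n) ⧸ K := QuotientGroup.mk' K
  have hrel : ∀ r ∈ P, ev (ext fun k => g (FreeGroup.of k)) r = 1 := by
    intro r hr
    rw [← hrels] at hr
    obtain ⟨r', hr', rfl⟩ := List.mem_map.mp hr
    rw [ev_vals]
    exact (QuotientGroup.eq_one_iff _).mpr (Subgroup.subset_normalClosure ⟨r', hr', rfl⟩)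
  obtain ⟨h1, h2, h3⟩ := (hPiff _ _).mp hrel
  have e2 : ∀ o', o' ≠ o →
      (fun j => ev (ext fun k => g (FreeGroup.of k)) ((σ o').getD j [])) = fun _ => 1 := by
    intro o' ho'
    have hh : Halts (e o') := (he o').mpr ⟨_, hu', hoth o' ho'⟩
    have h4 := h3 o'
    rw [(hnb _).1 hh _ _ (h2 o').base] at h4
    funext j
    by_cases hj : j < N + 4
    · exact (h2 o').coll_c ((h2 o').coll_w h4) j hj
    · rw [hσ, if_neg hj]
  apply hne
  change g _ = 1
  rw [← ev_vals]
  refine good_triv o _ _ (h2 o).ss (fun k hk => ?_) w' hgood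
  have := h1 k
  rw [hsingle _ _ o fun o' ho' => by rw [e2 o' ho', hev1], ext_val] at this
  rw [this]
  simp only [θw, if_neg hk]
  cases o.1.2 k <;> simp

end Pool.Agent.Results.MP_edf429_lc.OmitGenerator
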