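import Mathlib
import Pool.Agent.Lib.MP_edf429_lc.TreeWord
import Pool.Agent.Lib.MP_1d6a3f_al.BassSerre

set_option autoImplicit false

namespace Pool.Agent.Results.MP_edf429_lc.TreeAction

open Pool.Agent.Shared.GroupUndec Pool.Agent.Lib.MP_edf429_lc Pool.Agent.Lib.MP_edf429_lc.TreeQM

lemma ev_par (χ : List Bool) (w : Word) :
    ev (fun k => (cond (χ.getD k false) (-1) 1 : ℤˣ)) w = cond (par χ w) (-1) 1 := by
  induction w with
  | nil => rfl
  | cons p w ih =>
    have e : par χ (p :: w) = xor (χ.getD p.1 false) (par χ w) := rfl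
    rw [ev_cons, ih, e]
    cases p.2 <;> cases χ.getD p.1 false <;> cases par χ w <;> simp

/-- The hypotheses of `result` hold with `K = 1`, `C = |D|` for every group `Q` that splits as a
nontrivial amalgam or as an HNN extension over a finite subgroup `D`; for a nontrivial free product
`D` is trivial. -/
lemma finite_splitting {Q : Type} [Group Q] (D : Subgroup Q) [Finite D]
    (h : Pool.Agent.Lib.MP_1d6a3f_al.SplitsOver D) :
    ∃ (V : Type) (_ : MulAction Q V) (T : SimpleGraph V), T.IsTree ∧
      (∀ (g : Q) (x y : V), T.Adj x y → T.Adj (g • x) (g • y)) ∧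
      (∀ x y : V, 1 ≤ T.dist x y → {g : Q | g • x = x ∧ g • y = y}.encard ≤ (Nat.card D : ℕ)) ∧
      ¬ ∃ v : V, ∀ g : Q, g • v = v := by
  obtain ⟨S⟩ := h.tree
  let _ : MulAction Q S.V := MulAction.compHom S.V S.ρ
  have hG : Pool.Agent.Shared.GroupTree.GTree Q S.T :=
    ⟨S.isTree, S.adj, fun g x y hxy h1 h2 => S.no_inversion g x y hxy ⟨h1, h2⟩⟩
  refine ⟨S.V, inferInstance, S.T, S.isTree, S.adj, fun x y hxy => ?_, fun ⟨v, hv⟩ => ?_⟩
  · obtain ⟨w, hw, hfix⟩ := hG.exists_edge (x := x) (y := y) fun e => by simp [e] at hxy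
    obtain ⟨k, hk⟩ := S.one_orbit x w hw
    have h1 := Set.encard_le_encard_of_injOn (s := {g : Q | g • x = x ∧ g • y = y})
      (t := (D : Set Q)) (f := fun g => k⁻¹ * g * k) (fun g hg => ?_)
      fun a _ b _ e => by simpa using e
    · rwa [← (Set.toFinite (D : Set Q)).cast_ncard_eq, ← Nat.card_coe_set_eq] at h1
    · have a1 : S.ρ g x = x := hg.1
      have a2 : S.ρ g w = w := hfix g hg.1 hg.2
      refine (S.stabilizer _).2 ?_
      rcases Sym2.eq_iff.1 hk with ⟨b1, b2⟩ | ⟨b1, b2⟩
      · simp only [map_mul, Equiv.Perm.mul_apply, b1, b2, a1, a2]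
        rw [← b1, ← b2]
        simp
      · simp only [map_mul, Equiv.Perm.mul_apply, b1, b2, a1, a2]
        rw [← b1, ← b2]
        simp
  · obtain ⟨g, hg⟩ := S.no_fixed v
    exact hg (hv g)

/-- One total algorithm, given `K`, `C` and a finite presentation of a group `G` that acts without
a global fixed vertex through a `(K, C)`-acylindrical action on a tree, outputs a word that is
nontrivial in `G`. -/
theorem result :
    ∃ f : (ℕ × ℕ) × ℕ × List (List (ℕ × Bool)) → List (ℕ × Bool), Computable f ∧
      ∀ (K C n : ℕ) (rels : List (List (Fin n × Bool))) (Q V : Type) [Group Q] [MulAction Q V]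
        (T : SimpleGraph V)
        (φ : (FreeGroup (Fin n) ⧸
          Subgroup.normalClosure {x : FreeGroup (Fin n) | ∃ r ∈ rels, x = FreeGroup.mk r}) →* Q),
        T.IsTree → (∀ (g : Q) (x y : V), T.Adj x y → T.Adj (g • x) (g • y)) →
        (∀ x y : V, K ≤ T.dist x y → {g : Q | g • x = x ∧ g • y = y}.encard ≤ C) →
        (¬ ∃ v : V, ∀ g, φ g • v = v) →
        ∃ w' : List (Fin n × Bool),
          w'.map (fun p : Fin n × Bool => (p.1.val, p.2)) =
            f ((K, C), n, rels.map (List.map (fun p : Fin n × Bool => (p.1.val, p.2)))) ∧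
          (QuotientGroup.mk (FreeGroup.mk w') : FreeGroup (Fin n) ⧸
            Subgroup.normalClosure {x : FreeGroup (Fin n) | ∃ r ∈ rels, x = FreeGroup.mk r})
            ≠ 1 := by
  classical
  refine ⟨fun a => pick a.2 (univ (a.1.1 + a.1.2 + 1) a.2.1 (a.2.1 * a.2.1 * a.2.1)) a.2.1, ?_, ?_⟩
  · exact (primrec_pick.comp (Primrec.snd.pair (primrec_univ.comp
      ((Primrec.succ.comp (Primrec.nat_add.comp (Primrec.fst.comp Primrec.fst)
        (Primrec.snd.comp Primrec.fst))).pair (Primrec.fst.comp Primrec.snd))))).to_comp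
  intro K C n rels Q V _ _ T φ hT hadj hA hfix
  set N := Subgroup.normalClosure {x : FreeGroup (Fin n) | ∃ r ∈ rels, x = FreeGroup.mk r}
  change ∃ w' : List (Fin n × Bool), vals w' =
    pick (n, rels.map vals) (univ (K + C + 1) n (n * n * n)) n ∧ _
  rcases pick_spec (n, rels.map vals) (univ (K + C + 1) n (n * n * n)) n with
    ⟨i, hi, ⟨χ, -, h1, h2⟩, e⟩ | ⟨hno, e⟩
  · refine ⟨[(⟨i, hi⟩, true)], by rw [e]; rfl, fun h => ?_⟩
    let ψ : FreeGroup (Fin n) →* ℤˣ := FreeGroup.lift fun k => cond (χ.getD k false) (-1) 1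
    have hψ : ∀ u : List (Fin n × Bool), ψ (FreeGroup.mk u) = cond (par χ (vals u)) (-1) 1 := by
      intro u
      rw [← ev_vals, ← ev_par]
      exact ev_congr (vals_letters u) fun k hk => by simp [Pool.Agent.Lib.MP_edf429_lc.ext, hk, ψ]
    have hN : N ≤ ψ.ker := by
      apply Subgroup.normalClosure_le_normal
      rintro _ ⟨r, hr, rfl⟩
      change ψ _ = 1
      rw [hψ, h2 _ (List.mem_map_of_mem hr)]
      rfl
    have h3 : ψ _ = 1 := hN ((QuotientGroup.eq_one_iff _).mp h)
    rw [hψ] at h3
    have h4 : par χ (vals [((⟨i, hi⟩ : Fin n), true)]) = true := by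
      change xor (χ.getD i false) false = true
      rw [h1]
      rfl
    rw [h4] at h3
    exact absurd h3 (by decide)
  · let ψ : FreeGroup (Fin n) →* φ.range := φ.rangeRestrict.comp (QuotientGroup.mk' N)
    have hsurj : Function.Surjective ψ :=
      φ.rangeRestrict_surjective.comp (QuotientGroup.mk'_surjective N)
    let s : Fin n → φ.range := fun k => ψ (FreeGroup.of k)
    have hs : Subgroup.closure (Set.range s) = ⊤ := by
      have : Set.range s = ψ '' Set.range FreeGroup.of := by rw [← Set.range_comp]; rfl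
      rw [this, ← MonoidHom.map_closure, FreeGroup.closure_range_of,
        Subgroup.map_top_of_surjective _ hsurj]
    have hG : NoTwo φ.range := by
      intro f hf
      have f1 : f 1 % 2 = 0 := by
        have := hf 1 1
        rw [mul_one] at this
        omega
      have finv : ∀ a, (f a⁻¹ - f a) % 2 = 0 := by
        intro a
        have := hf a a⁻¹
        rw [mul_inv_cancel] at this
        omega
      let χ : Fin n → Bool := fun k => decide (f (s k) % 2 = 1)
      have hp : ∀ u : List (Fin n × Bool),
          par (List.ofFn χ) (vals u) = decide (f (ψ (FreeGroup.mk u)) % 2 = 1) := by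
        intro u
        induction u with
        | nil =>
          have : ψ (FreeGroup.mk []) = 1 := map_one ψ
          rw [this, f1]
          rfl
        | cons p u ih =>
          have e1 : FreeGroup.mk (p :: u) = FreeGroup.mk [p] * FreeGroup.mk u := by
            rw [FreeGroup.mul_mk]; rfl
          have e2 : (f (ψ (FreeGroup.mk [p])) - f (s p.1)) % 2 = 0 := by
            rcases p with ⟨k, _ | _⟩
            · have : FreeGroup.mk [(k, false)] = (FreeGroup.of k)⁻¹ := rfl
              rw [this, map_inv]
              exact finv _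
            · have : FreeGroup.mk [(k, true)] = FreeGroup.of k := rfl
              rw [this]
              simp [s]
          have e3 := hf (ψ (FreeGroup.mk [p])) (ψ (FreeGroup.mk u))
          rw [par_vals, ih, e1, map_mul]
          by_cases a1 : f (s p.1) % 2 = 1 <;> by_cases a2 : f (ψ (FreeGroup.mk u)) % 2 = 1 <;>
            simp only [χ, a1, a2] <;> simp <;> omega
      have hk : ∀ k, f (s k) % 2 = 0 := by
        intro k
        by_contra hc
        refine hno k k.2 ⟨List.ofFn χ, by simpa using mem_allB (List.ofFn χ), ?_, ?_⟩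
        · have : f (s k) % 2 = 1 := by omega
          simp [χ, this]
        · intro r hr
          obtain ⟨r', hr', rfl⟩ := List.mem_map.mp hr
          have : QuotientGroup.mk' N (FreeGroup.mk r') = 1 :=
            (QuotientGroup.eq_one_iff _).mpr (Subgroup.subset_normalClosure ⟨r', hr', rfl⟩)
          rw [hp, MonoidHom.comp_apply, this, map_one, f1]
          rfl
      intro a
      have : a ∈ Subgroup.closure (Set.range s) := hs ▸ Subgroup.mem_top a
      induction this using Subgroup.closure_induction with
      | mem x hx => obtain ⟨k, rfl⟩ := hx; exact hk k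
      | one => exact f1
      | mul x y _ _ hx hy => have := hf x y; omega
      | inv x _ hx => have := finv x; omega
    have hfix' : ∀ v : V, ∃ i, s i • v ≠ v := by
      intro v
      by_contra hc
      push Not at hc
      refine hfix ⟨v, fun g => ?_⟩
      have : MulAction.stabilizer φ.range v = ⊤ := by
        rw [eq_top_iff, ← hs, Subgroup.closure_le]
        rintro _ ⟨k, rfl⟩
        exact hc k
      exact (this ▸ Subgroup.mem_top (φ.rangeRestrict g) : _ ∈ MulAction.stabilizer φ.range v)
    have hA' : Acyl φ.range T K C := fun x y hxy =>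
      (Set.encard_le_encard_of_injOn (f := Subtype.val) (fun g hg => hg)
        Subtype.val_injective.injOn).trans (hA x y hxy)
    have key := univ_ne_one (gtree_of hG hT fun g => hadj g) hA' hG s hs hfix'
    obtain ⟨v⟩ : Nonempty V := hT.connected.nonempty
    obtain ⟨i, -⟩ := hfix' v
    obtain ⟨w', hw'⟩ := exists_vals _ (univ_letters (K + C + 1) i.pos (n * n * n))
    refine ⟨w', by rw [e, hw'], fun h => key ?_⟩
    rw [← hw', ev_vals, MonoidHom.comp_apply, QuotientGroup.mk'_apply, h, map_one]

end Pool.Agent.Results.MP_edf429_lc.TreeAction
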